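import Pool.Agent.QUD.StmtsRB

/-! Squad QUD (MP_5b0138_an), row BTQ: two adjacent dying sides give the data `Tq`. -/

set_option autoImplicit false

namespace Pool.Agent.QUD.H48

open MeasureTheory Complex Filter Topology Pool.Agent.H16Iso Pool.Agent.H62T
open Pool.Agent.AEU Pool.Agent.XQ
open Pool.Agent.H1Gen (det CCW poly)

/-- the closure relations from the four edges -/
lemma core (a b c d : ℂ) (l1 l2 l3 l4 x y z : ℝ) (ha : ‖a‖ = 1) (hb : ‖b‖ = 1)
    (h0 : (l1 : ℂ) * (I * a) + (l2 : ℂ) * (I * b) + (l3 : ℂ) * (I * c) + (l4 : ℂ) * (I * d) = 0)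
    (c1 : a.re * b.re + a.im * b.im = -Real.cos x) (s1 : a.re * b.im - a.im * b.re = Real.sin x)
    (c2 : b.re * c.re + b.im * c.im = -Real.cos y) (s2 : b.re * c.im - b.im * c.re = Real.sin y)
    (c0 : d.re * a.re + d.im * a.im = -Real.cos z) (s0 : d.re * a.im - d.im * a.re = Real.sin z) :
    l1 - l4 * Real.cos z = l2 * Real.cos x - l3 * Real.cos (x + y) ∧
    l4 * Real.sin z = l2 * Real.sin x - l3 * Real.sin (x + y) := by
  have na : a.re * a.re + a.im * a.im = 1 := by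
    have := Complex.sq_norm a
    rw [ha, Complex.normSq_apply] at this; linarith
  have nb : b.re * b.re + b.im * b.im = 1 := by
    have := Complex.sq_norm b
    rw [hb, Complex.normSq_apply] at this; linarith
  have hre := congrArg Complex.re h0
  have him := congrArg Complex.im h0
  simp only [add_re, add_im, mul_re, mul_im, ofReal_re, ofReal_im, I_re, I_im, zero_re,
    zero_im, zero_mul, one_mul, zero_sub, zero_add, sub_zero, add_zero] at hre him
  rw [Real.cos_add, Real.sin_add]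
  set C1 := Real.cos x
  set S1 := Real.sin x
  set C2 := Real.cos y
  set S2 := Real.sin y
  set C0 := Real.cos z
  set S0 := Real.sin z
  have b1 : b.re = -(C1 * a.re) - S1 * a.im := by
    linear_combination (-b.re) * na + a.re * c1 - a.im * s1
  have b2 : b.im = -(C1 * a.im) + S1 * a.re := by
    linear_combination (-b.im) * na + a.im * c1 + a.re * s1
  have e1 : c.re = -(C2 * b.re) - S2 * b.im := by
    linear_combination (-c.re) * nb + b.re * c2 - b.im * s2
  have e2 : c.im = -(C2 * b.im) + S2 * b.re := by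
    linear_combination (-c.im) * nb + b.im * c2 + b.re * s2
  have d1 : d.re = -(C0 * a.re) + S0 * a.im := by
    linear_combination (-d.re) * na + a.re * c0 + a.im * s0
  have d2 : d.im = -(C0 * a.im) - S0 * a.re := by
    linear_combination (-d.im) * na + a.im * c0 - a.re * s0
  have f1 : l1 * a.re + l2 * b.re + l3 * c.re + l4 * d.re = 0 := by linarith
  have f2 : l1 * a.im + l2 * b.im + l3 * c.im + l4 * d.im = 0 := by linarith
  rw [e1, b2, b1, d1] at f1
  rw [e2, b2, b1, d2] at f2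
  constructor
  · linear_combination a.re * f1 + a.im * f2 -
      (l1 - l4 * C0 - l2 * C1 + l3 * (C1 * C2 - S1 * S2)) * na
  · linear_combination -(a.re * f2 - a.im * f1) +
      (l2 * S1 - l3 * (S1 * C2 + C1 * S2) - l4 * S0) * na

/-- a unit direction from the length of the edge -/
lemma unit_of (l : ℝ) (p a : ℂ) (hl : 0 < l) (h : p = (l : ℂ) * (I * a)) (hn : l = ‖p‖) :
    ‖a‖ = 1 := by
  rw [h, norm_mul, norm_mul, Complex.norm_I, one_mul, Complex.norm_real, Real.norm_eq_abs,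
    abs_of_pos hl] at hn
  have : l * (‖a‖ - 1) = 0 := by linarith
  rcases mul_eq_zero.1 this with h1 | h1
  · exact absurd h1 hl.ne'
  · linarith

/-- the sine of an angle from the determinant of the edges: `p = l I a` enters, `q = m I b` leaves -/
lemma det_of (l m s : ℝ) (p q a b : ℂ) (hl : 0 < l) (hm : 0 < m) (hp : p = (l : ℂ) * (I * a))
    (hq : q = (m : ℂ) * (I * b)) (h : det q (-p) = m * l * s) :
    a.re * b.im - a.im * b.re = s := by
  have h2 : det q (-p) = m * l * (a.re * b.im - a.im * b.re) := by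
    rw [hp, hq]
    unfold det
    simp only [neg_re, neg_im, mul_re, mul_im, ofReal_re, ofReal_im, I_re, I_im, zero_mul,
      one_mul, zero_sub, zero_add, sub_zero, add_zero]
    ring
  rw [h2] at h
  exact mul_left_cancel₀ (mul_pos hm hl).ne' h

lemma ang_of (u x : ℝ) (hu0 : 0 < u) (hu1 : u < Real.pi) (hx0 : 0 < x) (hx1 : x < Real.pi)
    (h : Real.cos u = Real.cos x) : u = x :=
  Real.injOn_cos ⟨hu0.le, hu1.le⟩ ⟨hx0.le, hx1.le⟩ h

theorem btq (hang : AngStmt) (hasm : AsmStmt) (hvtx : VtxStmt) : BtqStmt := by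
  intro a b c d L x y z hC h1 h2
  obtain ⟨hccw, -, E0, E1, E2, E3, k0, k1, k2, k3⟩ := hvtx a b c d hC
  obtain ⟨hs, har⟩ := hasm _ hccw
  obtain ⟨A00, A01, A02, A03, A04⟩ := hang _ hccw 0
  obtain ⟨A10, A11, A12, A13, A14⟩ := hang _ hccw 1
  obtain ⟨A20, A21, A22, A23, A24⟩ := hang _ hccw 2
  obtain ⟨A30, A31, A32, A33, A34⟩ := hang _ hccw 3
  have w0 : vv a b c d 0 = vx d a := rfl
  have w1 : vv a b c d 1 = vx a b := rfl
  have w2 : vv a b c d 2 = vx b c := rfl
  have w3 : vv a b c d 3 = vx c d := rfl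
  have i01 : (0 : Fin 4) + 1 = 1 := rfl
  have i03 : (0 : Fin 4) + 3 = 3 := rfl
  have i11 : (1 : Fin 4) + 1 = 2 := rfl
  have i13 : (1 : Fin 4) + 3 = 0 := rfl
  have i21 : (2 : Fin 4) + 1 = 3 := rfl
  have i23 : (2 : Fin 4) + 3 = 1 := rfl
  have i31 : (3 : Fin 4) + 1 = 0 := rfl
  have n0 : en (vv a b c d) 0 = ‖vx a b - vx d a‖ := rfl
  have n1 : en (vv a b c d) 1 = ‖vx b c - vx a b‖ := rfl
  have n2 : en (vv a b c d) 2 = ‖vx c d - vx b c‖ := rfl
  have n3 : en (vv a b c d) 3 = ‖vx d a - vx c d‖ := rfl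
  rw [i01, i03, w0, w1, w3] at A04
  rw [i11, i13, w0, w1, w2] at A14
  rw [i21, i23, w1, w2, w3] at A24
  have z0 : an (vv a b c d) 0 = z := by
    refine ang_of _ _ A00 A01 h2.x0 h2.x1 ?_
    rw [k0, h2.cx, neg_neg]
  have x0 : an (vv a b c d) 1 = x := by
    refine ang_of _ _ A10 A11 h1.x0 h1.x1 ?_
    rw [k1, h1.cx, neg_neg]
  have y0 : an (vv a b c d) 2 = y := by
    refine ang_of _ _ A20 A21 h1.y0 h1.y1 ?_
    rw [k2, h1.cy, neg_neg]
  rw [z0, x0, y0] at hs
  rw [z0, y0] at har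
  rw [z0] at A04
  rw [x0] at A14
  rw [y0] at A24
  set l1 := en (vv a b c d) 0 with hl1
  set l2 := en (vv a b c d) 1 with hl2
  set l3 := en (vv a b c d) 2 with hl3
  set l4 := en (vv a b c d) 3 with hl4
  have ha : ‖a.1‖ = 1 := unit_of l1 _ _ A02 E0 n0
  have hb : ‖b.1‖ = 1 := unit_of l2 _ _ A12 E1 n1
  have s1 : a.1.re * b.1.im - a.1.im * b.1.re = Real.sin x := by
    refine det_of l1 l2 _ _ _ _ _ A02 A12 E0 E1 ?_
    rw [neg_sub]; exact A14
  have s2 : b.1.re * c.1.im - b.1.im * c.1.re = Real.sin y := by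
    refine det_of l2 l3 _ _ _ _ _ A12 A22 E1 E2 ?_
    rw [neg_sub]; exact A24
  have s0 : d.1.re * a.1.im - d.1.im * a.1.re = Real.sin z := by
    refine det_of l4 l1 _ _ _ _ _ A32 A02 E3 E0 ?_
    rw [neg_sub]; exact A04
  have c1 : a.1.re * b.1.re + a.1.im * b.1.im = -Real.cos x := h1.cx
  have c2 : b.1.re * c.1.re + b.1.im * c.1.im = -Real.cos y := h1.cy
  have c0 : d.1.re * a.1.re + d.1.im * a.1.im = -Real.cos z := h2.cx
  have hsum : (l1 : ℂ) * (I * a.1) + (l2 : ℂ) * (I * b.1) + (l3 : ℂ) * (I * c.1) +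
      (l4 : ℂ) * (I * d.1) = 0 := by
    rw [← E0, ← E1, ← E2, ← E3]; ring
  obtain ⟨q1, q2⟩ := core a.1 b.1 c.1 d.1 l1 l2 l3 l4 x y z ha hb hsum c1 s1 c2 s2 c0 s0
  have hsv : ∀ t, sv t = sn t := fun t => rfl
  refine ⟨x0, ⟨⟨h1.x0, h1.x1, h2.x0, h2.x1, ?_⟩, ⟨h1.x0, h1.x1, h1.y0, h1.y1, h1.sum⟩, ?_,
    A02, A12, A22, A32, ?_, ?_, q1, q2⟩, ?_⟩
  · have := h2.sum
    show Real.pi < x + z
    linarith
  · linarith
  · rw [h2.len, hsv, hsv, n0, norm_sub_rev]; ring
  · rw [h1.len, hsv, hsv, n1, norm_sub_rev]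
  · rw [har]; rfl

end Pool.Agent.QUD.H48
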